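import Pool.Agent.MP_ed9623_an.H77.SpecX

/-! The equations of the time derivatives. -/

open MeasureTheory Filter Topology Set
open scoped ContDiff InnerProductSpace

namespace Pool.Agent.MP_ed9623_an.H77

theorem rowEqN : OfEqN := by
  intro H V _ _ _ _ _ _ S R U h m t
  have hU : ContDiff ℝ ∞ U := contDiffOn_univ.1 h.1.1
  have d : ∀ i t, HasDerivAt (iteratedDeriv i U) (iteratedDeriv (i + 1) U t) t := fun i t => by
    rw [iteratedDeriv_succ]
    exact sm_hasDerivAt (sm_iter hU i) t
  induction m generalizing t with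
  | zero => simpa [St.G] using h.1.2 t trivial
  | succ m ih =>
    have h1 := ((adj S.ι).comp S.ι).hasFDerivAt.comp_hasDerivAt t (d (m + 1) t)
    have h2 := ((S.A.hasFDerivAt.comp_hasDerivAt t (d m t)).const_sub
      (if m = 0 then S.γ else 0)).fun_sub (HasDerivAt.fun_sum (u := Finset.range (m + 1))
        fun i _ => ((S.B.hasFDerivAt.comp_hasDerivAt t (d i t)).clm_apply
          (d (m - i) t)).fun_const_smul (m.choose i : ℝ))
    have h3 := h1.unique (h2.congr_of_eventuallyEq (Eventually.of_forall ih))
    simp only [Nat.cast_smul_eq_nsmul] at h3 ⊢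
    refine h3.trans ?_
    rw [if_neg m.succ_ne_zero, zero_sub,
      Finset.sum_choose_succ_nsmul fun i j => S.B (iteratedDeriv i U t) (iteratedDeriv j U t),
      ← Finset.sum_add_distrib]
    congr 1
    refine Finset.sum_congr rfl fun i hi => ?_
    rw [Nat.sub_add_comm (Finset.mem_range_succ_iff.1 hi), smul_add, add_comm]
    rfl

end Pool.Agent.MP_ed9623_an.H77
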