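import Pool.Agent.MP_ed9623_an.H77.SpecZ

/-! Smooth approximations with uniform bounds. -/

open MeasureTheory Filter Topology Set
open scoped ContDiff

namespace Pool.Agent.MP_ed9623_an.H77

open H64

namespace RepA

theorem clm_le (A : ST →L[ℝ] ℝ) : ‖A‖ ≤ |A e0| + |A e1| + |A e2| := by
  refine A.opNorm_le_bound (by positivity) fun v => ?_
  have e : v = v.1 • e0 + v.2.1 • e1 + v.2.2 • e2 := by ext <;> simp
  have h1 : |v.1| ≤ ‖v‖ := norm_fst_le v
  have h2 : |v.2.1| ≤ ‖v‖ := (norm_fst_le v.2).trans (norm_snd_le v)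
  have h3 : |v.2.2| ≤ ‖v‖ := (norm_snd_le v.2).trans (norm_snd_le v)
  conv_lhs => rw [e]
  rw [map_add, map_add, map_smul, map_smul, map_smul, Real.norm_eq_abs]
  refine (abs_add_three _ _ _).trans ?_
  simp only [smul_eq_mul, abs_mul]
  nlinarith [mul_le_mul_of_nonneg_right h1 (abs_nonneg (A e0)),
    mul_le_mul_of_nonneg_right h2 (abs_nonneg (A e1)),
    mul_le_mul_of_nonneg_right h3 (abs_nonneg (A e2))]

theorem step {F : ST → ℝ} (hF : ContDiff ℝ ∞ F) (j : ℕ) (z : ST) :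
    ‖iteratedFDeriv ℝ (j + 1) F z‖ ≤ ‖iteratedFDeriv ℝ j (pd e0 F) z‖ +
      ‖iteratedFDeriv ℝ j (pd e1 F) z‖ + ‖iteratedFDeriv ℝ j (pd e2 F) z‖ := by
  rw [← norm_iteratedFDeriv_fderiv]
  refine ContinuousMultilinearMap.opNorm_le_bound (by positivity) fun m => (clm_le _).trans ?_
  have h : ∀ e, |iteratedFDeriv ℝ j (fderiv ℝ F) z m e| ≤
      ‖iteratedFDeriv ℝ j (pd e F) z‖ * ∏ i, ‖m i‖ := fun e => by
    have h1 : ContDiff ℝ ∞ (fderiv ℝ F) := hF.fderiv_right le_rfl
    have h2 := iteratedFDeriv_clm_apply_const_apply (i := j) h1 (by exact_mod_cast le_top)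
      (x := z) (u := e) (m := m)
    rw [← h2]
    exact (iteratedFDeriv ℝ j (pd e F) z).le_opNorm m
  linarith [h e0, h e1, h e2]

theorem m2_ind (a b c d : ℝ) {u : P → ℝ} (hu : ContDiff ℝ ∞ u) :
    M2 ((Bx a b c d).indicator u) := by
  obtain ⟨χ, h1, -, h2⟩ := exists_cut (isCompact_Icc.prod isCompact_Icc :
    IsCompact (Icc a b ×ˢ Icc c d)) isOpen_univ (subset_univ _)
  rw [← indicator_congr (f := fun x => χ x * u x) fun x hx => by
    simp only [h2.self_of_nhdsSet x (prod_mono Ioo_subset_Icc_self Ioo_subset_Icc_self hx),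
      one_mul]]
  exact (h1.muls hu).m2.ind (isOpen_Bx a b c d).measurableSet

theorem sup (hH : HbS) (hM : MixS) (a b c d : ℝ) : ∃ C : ℝ, 0 ≤ C ∧ ∀ (u : P → ℝ) (R : ℝ),
    ContDiff ℝ ∞ u → 0 ≤ R → HB (Bx a b c d) 2 u R → ∀ p ∈ Bx a b c d, |u p| ≤ C * R := by
  obtain ⟨C, h0, -, -, h1⟩ := hM a b c d
  refine ⟨C * 4, by positivity, fun u R hu hR h => ?_⟩
  have hO := isOpen_Bx a b c d
  have c1 : ∀ v : P → ℝ, ∀ᵐ p, p ∈ Bx a b c d → v p = (Bx a b c d).indicator v p := fun v =>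
    Eventually.of_forall fun p hp => (indicator_of_mem hp v).symm
  have w0 : ∀ (v : P → ℝ) e, ContDiff ℝ ∞ v → WD (Bx a b c d) e v (pd e v) := fun v e hv =>
    WD.of_cd (contDiff_infty.1 hv 1) _ e
  have w : ∀ (v : P → ℝ) e, ContDiff ℝ ∞ v →
      WD (Bx a b c d) e ((Bx a b c d).indicator v) ((Bx a b c d).indicator (pd e v)) :=
    fun v e hv => (w0 v e hv).congr (c1 _) (c1 _)
  have n : ∀ v : P → ℝ, ContDiff ℝ ∞ v → HB (Bx a b c d) 0 v R →
      nm ((Bx a b c d).indicator v) ≤ R := fun v hv h => by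
    simpa only [indicator_indicator, inter_self] using
      hH.2.1 _ _ R hO (m2_ind a b c d hv) hR (h.congr (c1 v))
  have hY := sm_pd hu (ee 0)
  have hS := sm_pd hu (ee 1)
  have hYS := sm_pd hS (ee 0)
  have h2 := h1 _ _ _ _ (m2_ind a b c d hu) (m2_ind a b c d hY) (m2_ind a b c d hS)
    (m2_ind a b c d hYS) (w u _ hu) (w u _ hu) (w _ _ hS)
  have n1 := n u hu (h.mono le_rfl (by norm_num) le_rfl)
  have n2 := n _ hY ((h.der (w0 u _ hu)).mono le_rfl (by norm_num) le_rfl)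
  have n3 := n _ hS ((h.der (w0 u _ hu)).mono le_rfl (by norm_num) le_rfl)
  have n4 := n _ hYS ((h.der (w0 u _ hu)).der (w0 _ _ hS))
  have h3 : volume (Bx a b c d ∩ {p | C * 4 * R < |u p|}) = 0 := by
    rw [measure_eq_zero_iff_ae_notMem]
    filter_upwards [h2] with p hp hq
    have h4 := hp hq.1
    rw [indicator_of_mem hq.1] at h4
    refine absurd (h4.trans ?_) (not_le.2 hq.2)
    rw [mul_assoc]
    exact mul_le_mul_of_nonneg_left (by linarith) h0
  rw [(hO.inter (isOpen_lt continuous_const hu.continuous.abs)).measure_eq_zero_iff volume] at h3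
  exact fun p hp => not_lt.1 fun hq => (eq_empty_iff_forall_notMem.1 h3 p) ⟨hp, hq⟩

theorem bound (h1 : Mol1S) {O : Set P} {C R t : ℝ} {p : P}
    (hC : ∀ u : P → ℝ, ContDiff ℝ ∞ u → HB O 2 u R → |u p| ≤ C) (j : ℕ) :
    ∀ (κ : P → ℝ) (W : ℝ → L), Test univ κ → ContDiff ℝ ∞ W →
      (∀ m ≤ j, HB O (j + 2) (mol κ (iteratedDeriv m W t : L)) R) →
      ‖iteratedFDeriv ℝ j (fun z : ST => mol κ (W z.1) z.2) (t, p)‖ ≤ 3 ^ j * C := by
  induction j with
  | zero =>
    intro κ W hκ hW h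
    simpa using hC _ ((h1 κ hκ).1 _ (M2.coe _)).1 (h 0 le_rfl)
  | succ j ih =>
    intro κ W hκ hW h
    obtain ⟨a1, a2, a3⟩ := (h1 κ hκ).2 W hW
    have b1 := ih κ (deriv W) hκ (hW.iterate_deriv 1) fun m hm => by
      rw [← iteratedDeriv_succ']
      exact (h (m + 1) (by omega)).mono le_rfl (by omega) le_rfl
    have b2 := fun i => ih (pd (ee i) κ) W (hκ.pd _) hW fun m hm => by
      obtain ⟨c1, c2⟩ := (h1 κ hκ).1 _ (M2.coe (iteratedDeriv m W t))
      rw [← c2]
      exact HB.der (h m (by omega)) (WD.of_cd (contDiff_infty.1 c1 1) _ _)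
    have b3 := b2 0
    have b4 := b2 1
    rw [← a2] at b1
    rw [← a3] at b3 b4
    refine (step a1 j _).trans ?_
    rw [pow_succ]
    change ‖iteratedFDeriv ℝ j (pd e1 _) _‖ ≤ _ at b3
    change ‖iteratedFDeriv ℝ j (pd e2 _) _‖ ≤ _ at b4
    linarith

end RepA

theorem rowRepA : OfRepA := by
  intro h1 h2 h3 h4 h5 a b c d a' b' d' t₀ k W ha hb hd hW hR
  obtain ⟨δ, d0, d1, d2, d3⟩ : ∃ δ : ℝ, 0 < δ ∧ a + δ < a' ∧ b' < b - δ ∧ d' < d - δ := by
    refine ⟨min (a' - a) (min (b - b') (d - d')) / 2, by simp [ha, hb, hd], ?_, ?_, ?_⟩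
    · linarith [min_le_left (a' - a) (min (b - b') (d - d'))]
    · linarith [min_le_right (a' - a) (min (b - b') (d - d')), min_le_left (b - b') (d - d')]
    · linarith [min_le_right (a' - a) (min (b - b') (d - d')), min_le_right (b - b') (d - d')]
  choose Mm M0 hM using fun m => hR m t₀ rfl
  have R0 : 0 ≤ ∑ m ∈ Finset.range (k + 1), Mm m := Finset.sum_nonneg fun m _ => M0 m
  obtain ⟨η, η0, hη⟩ := Metric.eventually_nhds_iff.1
    ((eventually_all_finset (Finset.range (k + 1))).2 fun m _ => hM m)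
  let β : ContDiffBump t₀ := ⟨η / 4, η / 2, by positivity, by linarith⟩
  obtain ⟨χ, c1, -, c2⟩ := exists_cut (isCompact_Icc.prod isCompact_Icc :
    IsCompact (Icc a' b' ×ˢ Icc c d')) (isOpen_Bx (a + δ) (b - δ) (c - 1) (d - δ))
    (prod_mono (Icc_subset_Ioo d1 d2) (Icc_subset_Ioo (by linarith) d3))
  have e0 : ∀ n : ℕ, 0 < δ / (n + 1) := fun n => by positivity
  have e1 : ∀ n : ℕ, δ / (n + 1) ≤ δ := fun n =>
    div_le_self d0.le (by linarith [Nat.cast_nonneg (α := ℝ) n])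
  choose κ k1 k2 using fun n : ℕ => h2.1 (δ / (n + 1)) (Metric.ball 0 (δ / (n + 1)) ∩ {v | v.2 < 0})
    (Metric.isOpen_ball.inter (isOpen_lt continuous_snd continuous_const))
    ⟨(0, -(δ / (n + 1) / 2)), by
      rw [mem_ball_zero_iff, Prod.norm_mk, norm_zero, norm_neg,
        Real.norm_of_nonneg (by linarith [e0 n])]
      exact max_lt (e0 n) (by linarith [e0 n]), by simpa using e0 n⟩ inter_subset_left
  obtain ⟨C, C0, hC⟩ := RepA.sup h4 h5 (a + δ) (b - δ) c (d - δ)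
  have hh : ContDiff ℝ ∞ fun z : ST => β z.1 * χ z.2 :=
    (β.contDiff.comp contDiff_fst).mul (c1.1.comp contDiff_snd)
  have hK : IsCompact (Metric.closedBall t₀ (η / 2) ×ˢ tsupport χ) :=
    (isCompact_closedBall _ _).prod c1.2.1
  have hs : tsupport (fun z : ST => β z.1 * χ z.2) ⊆ Metric.closedBall t₀ (η / 2) ×ˢ tsupport χ :=
    closure_minimal (fun z hz => ⟨Metric.ball_subset_closedBall
      (β.support_eq ▸ left_ne_zero_of_mul hz), subset_tsupport _ (right_ne_zero_of_mul hz)⟩)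
      hK.isClosed
  choose B hB using fun i : ℕ => (hh.continuous_iteratedFDeriv (m := i)
    (by exact_mod_cast le_top)).bounded_above_of_compact_support
    (HasCompactSupport.iteratedFDeriv (hK.of_isClosed_subset (isClosed_tsupport _) hs) i)
  have B0 : ∀ i, 0 ≤ B i := fun i => (norm_nonneg _).trans (hB i 0)
  have hg := fun n => ((h1 _ (k1 n).test).2 W hW).1
  refine ⟨fun n z => β z.1 * χ z.2 * mol (κ n) (W z.1) z.2, ∑ j ∈ Finset.range (k + 1),
    ∑ i ∈ Finset.range (j + 1), (j.choose i : ℝ) * B i *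
      (3 ^ (j - i) * (C * ∑ m ∈ Finset.range (k + 1), Mm m)),
    fun n => hh.mul (hg n), fun n z hz j hj => ?_, ?_⟩
  · refine ((norm_iteratedFDeriv_mul_le hh (hg n) z (by exact_mod_cast le_top)).trans
      (Finset.sum_le_sum fun i _ => ?_)).trans (Finset.single_le_sum (f := fun j =>
        ∑ i ∈ Finset.range (j + 1), (j.choose i : ℝ) * B i *
          (3 ^ (j - i) * (C * ∑ m ∈ Finset.range (k + 1), Mm m)))
        (fun j _ => Finset.sum_nonneg fun i _ => by have := B0 i; positivity)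
        (Finset.mem_range.2 (by omega)))
    have := B0 i
    by_cases hz' : z ∈ tsupport fun z : ST => β z.1 * χ z.2
    · obtain ⟨z1, z2⟩ := hs hz'
      have z3 := mem_Bx.1 (c1.2.2 z2)
      refine mul_le_mul (mul_le_mul_of_nonneg_left (hB i z) (Nat.cast_nonneg _))
        (RepA.bound h1 (t := z.1) (p := z.2) (fun u hu h => hC u _ hu R0 h z.2 (mem_Bx.2 (by tauto)))
          _ _ W (k1 n).test hW fun m hm => ?_) (norm_nonneg _) (by positivity)
      have hm' : m ∈ Finset.range (k + 1) := Finset.mem_range.2 (by omega)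
      refine h3 (Bx a b c d) _ _ _ _ _ _ (k1 n) (M2.coe _) R0 (fun x hx v hv => ?_)
        ((hη (by linarith [Metric.mem_closedBall.1 z1]) m hm').mono le_rfl (by omega)
          (Finset.single_le_sum (fun m _ => M0 m) hm'))
      obtain ⟨v1, v2⟩ := k2 n hv
      have v3 := (mem_ball_zero_iff.1 v1).trans_le (e1 n)
      have v4 := abs_lt.1 ((norm_fst_le v).trans_lt v3)
      have v5 := abs_lt.1 ((norm_snd_le v).trans_lt v3)
      have x1 := mem_Bx.1 hx
      have v6 : v.2 < 0 := v2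
      refine mem_Bx.2 ?_
      simp only [Prod.fst_sub, Prod.snd_sub]
      refine ⟨⟨?_, ?_⟩, ?_, ?_⟩ <;> linarith [x1.1.1, x1.1.2, x1.2.1, x1.2.2, v4.1, v4.2, v5.1]
    · rw [Function.notMem_support.1 fun h => hz' (support_iteratedFDeriv_subset i h)]
      simp only [norm_zero, mul_zero, zero_mul]
      positivity
  · filter_upwards [β.eventuallyEq_one] with t ht φ hφ
    have e2 : ∀ n x, β t * χ x * mol (κ n) (W t) x * φ x = mol (κ n) (W t) x * φ x := fun n x => by
      by_cases hx : x ∈ Bx a' b' c d'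
      · rw [ht, c2.self_of_nhdsSet x (prod_mono Ioo_subset_Icc_self Ioo_subset_Icc_self hx)]
        simp
      · simp [hφ.off hx]
    simp only [e2]
    have e3 : Tendsto (fun n => nm fun p => mol (κ n) (W t) p - W t p) atTop (𝓝 0) := by
      refine tendsto_order.2 ⟨fun r hr => Eventually.of_forall fun n => hr.trans_le (nm_nonneg _),
        fun r hr => ?_⟩
      obtain ⟨ε₀, a1, a2⟩ := h2.2.2.2 _ (M2.coe (W t)) (r / 2) (by linarith)
      have a3 : Tendsto (fun n : ℕ => δ / (n + 1 : ℝ)) atTop (𝓝 0) :=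
        tendsto_const_nhds.div_atTop (tendsto_natCast_atTop_atTop.atTop_add tendsto_const_nhds)
      filter_upwards [a3.eventually (ge_mem_nhds a1)] with n hn
      linarith [a2 _ _ hn (k1 n)]
    rw [tendsto_iff_norm_sub_tendsto_zero]
    refine squeeze_zero (fun _ => norm_nonneg _) (fun n => ?_) (by simpa using e3.mul_const (nm φ))
    have m1 := (h2.2.1 _ _ _ (k1 n) (M2.coe (W t))).1
    rw [← integral_sub (m1.int_mul hφ.m2) ((M2.coe _).int_mul hφ.m2)]
    simp only [← sub_mul]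
    exact abs_int_le (m1.sub (M2.coe _)) hφ.m2

end Pool.Agent.MP_ed9623_an.H77
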