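import Pool.Agent.MP_ed9623_an.H77.SpecW

/-! Smoothness of mollifications. -/

open MeasureTheory Filter Topology Set
open scoped ContDiff

namespace Pool.Agent.MP_ed9623_an.H77

open H64

namespace Mol1

variable {k : P → ℝ}

theorem mol_eq (k f : P → ℝ) : mol k f = convolution f k (ContinuousLinearMap.mul ℝ ℝ) volume := rfl

theorem part1 (hk : Test univ k) {f : P → ℝ} (hf : M2 f) :
    ContDiff ℝ ∞ (mol k f) ∧ ∀ e, pd e (mol k f) = mol (pd e k) f := by
  refine ⟨mol_eq k f ▸ hk.2.1.contDiff_convolution_right _ hf.loc hk.1, fun e => funext fun x => ?_⟩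
  rw [pd, mol_eq, (hk.2.1.hasFDerivAt_convolution_right _ hf.loc (hk.1.of_le (by simp)) x).fderiv,
    convolution_precompR_apply _ hf.loc (hk.2.1.fderiv ℝ) (hk.1.continuous_fderiv (by simp))]
  rfl

theorem m2 (hk : Test univ k) (x : P) : M2 fun z => k (x - z) :=
  MemLp.comp_measurePreserving hk.m2 (Measure.measurePreserving_sub_left volume x)

/-- The translated kernel as an element of `L²`. -/
noncomputable def T (hk : Test univ k) (x : P) : L := MemLp.toLp _ (m2 hk x)

theorem T_apply (hk : Test univ k) (x : P) (ξ : L) : inner ℝ ξ (T hk x) = mol k ξ x := by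
  rw [T, inner_L]
  refine integral_congr_ae ?_
  filter_upwards [MemLp.coeFn_toLp (m2 hk x)] with z hz
  rw [hz]

theorem T_norm (hk : Test univ k) (x : P) : ‖T hk x‖ = nm k := by
  rw [T, nm_toLp (m2 hk x), nm, nm, integral_sub_left_eq_self (fun z => k z ^ 2) volume x]

/-- The derivative of `T`. -/
noncomputable def D (hk : Test univ k) (x : P) : P →L[ℝ] L :=
  (ContinuousLinearMap.fst ℝ ℝ ℝ).smulRight (T (hk.pd (ee 0)) x) +
    (ContinuousLinearMap.snd ℝ ℝ ℝ).smulRight (T (hk.pd (ee 1)) x)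

theorem weak (hk : Test univ k) (ξ : L) (x : P) :
    HasFDerivAt (fun y => inner ℝ ξ (T hk y)) ((innerSL ℝ ξ).comp (D hk x)) x := by
  obtain ⟨h1, h2⟩ := part1 hk (M2.coe ξ)
  simp only [T_apply]
  refine (sm_diff h1 x).hasFDerivAt.congr_fderiv ?_
  ext
  · simpa [D, T_apply, pd, ee] using congrFun (h2 (ee 0)) x
  · simpa [D, T_apply, pd, ee] using congrFun (h2 (ee 1)) x

theorem mv (hk : Test univ k) (φ : P →L[ℝ] L) {s : Set P} (hs : Convex ℝ s) {c : ℝ}
    (h : ∀ z ∈ s, ‖D hk z - φ‖ ≤ c) {x y : P} (hx : x ∈ s) (hy : y ∈ s) :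
    ‖T hk y - T hk x - φ (y - x)‖ ≤ c * ‖y - x‖ := by
  have hc : 0 ≤ c := (norm_nonneg _).trans (h x hx)
  generalize hξ : T hk y - T hk x - φ (y - x) = ξ
  have := hs.norm_image_sub_le_of_norm_hasFDerivWithin_le' (C := ‖ξ‖ * c)
    (φ := (innerSL ℝ ξ).comp φ) (fun z _ => (weak hk ξ z).hasFDerivWithinAt) (fun z hz => by
      rw [← ContinuousLinearMap.comp_sub]
      refine (ContinuousLinearMap.opNorm_comp_le _ _).trans ?_
      rw [innerSL_apply_norm]
      exact mul_le_mul_of_nonneg_left (h z hz) (norm_nonneg _)) hx hy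
  rw [ContinuousLinearMap.comp_apply, innerSL_apply_apply, ← inner_sub_right, ← inner_sub_right,
    hξ, real_inner_self_eq_norm_sq, Real.norm_of_nonneg (sq_nonneg _), sq, mul_assoc] at this
  rcases (norm_nonneg ξ).eq_or_lt with h0 | h0
  · rw [← h0]; positivity
  · exact le_of_mul_le_mul_left this h0

theorem cont (hk : Test univ k) : Continuous (T hk) := by
  have h : ∀ z, ‖D hk z - 0‖ ≤ nm (pd (ee 0) k) + nm (pd (ee 1) k) := fun z => by
    rw [sub_zero]
    refine (norm_add_le _ _).trans (add_le_add ?_ ?_) <;>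
      rw [ContinuousLinearMap.norm_smulRight_apply, T_norm]
    · exact mul_le_of_le_one_left (nm_nonneg _) (ContinuousLinearMap.norm_fst_le ..)
    · exact mul_le_of_le_one_left (nm_nonneg _) (ContinuousLinearMap.norm_snd_le ..)
  refine (LipschitzWith.of_dist_le' (K := nm (pd (ee 0) k) + nm (pd (ee 1) k)) fun x y => ?_).continuous
  simpa [dist_eq_norm] using mv hk 0 convex_univ (fun z _ => h z) (mem_univ y) (mem_univ x)

theorem strong (hk : Test univ k) (x : P) : HasFDerivAt (T hk) (D hk x) x := by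
  have hD : Continuous (D hk) := contDiff_zero.1 (((contDiff_const (𝕜 := ℝ)).smulRight
    (contDiff_zero.2 (cont _))).add (contDiff_const.smulRight (contDiff_zero.2 (cont _))))
  rw [hasFDerivAt_iff_isLittleO, Asymptotics.isLittleO_iff]
  intro c hc
  obtain ⟨δ, h1, h2⟩ := Metric.continuousAt_iff.1 (hD.continuousAt (x := x)) c hc
  filter_upwards [Metric.ball_mem_nhds x h1] with y hy
  exact mv hk _ (convex_ball x δ) (fun z hz => by rw [← dist_eq_norm]; exact (h2 hz).le)
    (Metric.mem_ball_self h1) hy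

theorem smooth (n : ℕ) : ∀ {k : P → ℝ} (hk : Test univ k), ContDiff ℝ n (T hk) := by
  induction n with
  | zero => exact fun hk => contDiff_zero.2 (cont hk)
  | succ n ih =>
    exact fun hk => contDiff_succ_iff_hasFDerivAt.2 ⟨D hk,
      (contDiff_const.smulRight (ih _)).add (contDiff_const.smulRight (ih _)), strong hk⟩

end Mol1

theorem rowMol1 : OfMol1 := by
  refine fun k hk => ⟨fun f hf => Mol1.part1 hk hf, fun W hW => ?_⟩
  have hT : ContDiff ℝ ∞ (Mol1.T hk) := contDiff_infty.2 fun n => Mol1.smooth n hk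
  have hF : ContDiff ℝ ∞ fun z : ST => mol k (W z.1) z.2 := by
    simpa only [Mol1.T_apply, Function.comp_def] using
      (hW.comp contDiff_fst).inner ℝ (hT.comp contDiff_snd)
  have hd := fun z => (hF.differentiable (by simp) z).hasFDerivAt
  refine ⟨hF, funext fun z => ?_, fun e => funext fun z => ?_⟩
  · have h1 := (hd (z.1, z.2)).comp_hasDerivAt z.1
      ((hasDerivAt_id z.1).prodMk (hasDerivAt_const z.1 z.2))
    have h2 := (hW.differentiable (by simp) z.1).hasDerivAt.inner ℝ
      (hasDerivAt_const z.1 (Mol1.T hk z.2))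
    simp only [Function.comp_def, Mol1.T_apply, inner_zero_right, zero_add] at h1 h2
    exact h1.unique h2
  · have h1 := (hd (z.1, z.2)).comp z.2 (hasFDerivAt_prodMk_right z.1 z.2)
    rw [← (Mol1.part1 hk (M2.coe (W z.1))).2 e]
    exact (congrArg (fun φ : P →L[ℝ] ℝ => φ e) h1.fderiv).symm

end Pool.Agent.MP_ed9623_an.H77
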